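import Pool.Agent.Helper44q.T.Fam

/-!
# The Hilbert property of quotients by finite groups and of homogeneous spaces with arbitrary stabilisers

Let `k` be a finitely generated field of characteristic zero, for example a number field, `L` a finite
Galois extension of `k`, `Γ` a finite group, `π : Γ → Gal(L/k)` a homomorphism (an embedding problem
over `k`), and let `Γ` act faithfully on a variety over `L` with function field `K`, semilinearly with
respect to `π`.  The varieties `X` over `k` with function field `K^Γ` are the (forms of) quotients of
this variety by the finite group (scheme) `ker π`.

1. Quotients of tori.  Let `K = L(x_1, …, x_n)` be the function field of a torus and let `Γ` act by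
automorphisms of the torus (monomials are mapped to monomials).  The following are equivalent: `X` has
the Hilbert property; for all `m` the embedding problem given by the `m`-fold fibre power of `π` has a
proper solution; `π` has a regular solution over some function field `S` over `k` whose models have
the Hilbert property.  The `k`-points of `X` are dense if and only if `π` has a weak solution.
`X` has the Hilbert property if `π` has a regular solution over `k(t)`, or if `π` has a weak
solution and an abelian kernel.  All these `X` have the Hilbert property as soon as their `k`-points are
dense (Q1 for them) if and only if all finite split embedding problems over `k` have proper solutions.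
2. Arbitrary stabilisers.  Let `K = L(V)`, `V` a vector space on which `Γ` acts (semi-)linearly, and let
`M` be the field of the functions which are invariant under `Γ` and constant on the curves of given
families of rational curves (through the general point), for example invariant under a connected
group `H⁰` of linear transformations of `V`; every connected linear group over `L` is covered by rational
curves through `1`.  Since every linear algebraic group `H` over `k` is the product of `H⁰` and a finite
subgroup, this contains all homogeneous spaces `SL_n / H`, `H` any linear algebraic group over `k`.  If the
embedding problems given by the fibre powers of `π` have proper solutions, in particular if all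
finite split embedding problems over `k` have and `π` has a weak solution, then the varieties with
function field `M` have the Hilbert property.
3. Arbitrary actions.  If `X` has the Hilbert property, the fibre powers of `π` have proper solutions;
and `X` has it if for all `r` there are `r` pairwise independent proper solutions of `π` such that the
twists by them of the given action have the Hilbert property.

Proof.  3. is proved as in `HomogeneousSpaces`: a cover of `X` which does not have a section over `X` has
a section over at most one of the twists, which are mapped to `X`.  For 1., the function field of the
torus is embedded `Γ`-equivariantly in a field of rational functions `L(y_(γ, i))` in variables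
permuted by `Γ`, such that it is algebraically closed in it (the flasque resolution of the torus).  For
2., the field `M` is algebraically closed in `K^Γ`.
-/

set_option autoImplicit false

namespace Pool.Agent.Results.MP_87f965_ag.ArbitraryStabilisers

open AlgebraicGeometry CategoryTheory W560.HP
open Pool.Agent.TH178.HI (HasFunctionField)
open Pool.Agent.Y742.HC (DensePoints)
open Pool.Agent.Helper44q.Q (HilbertType inv FinGen)
open Pool.Agent.Helper44q.E Pool.Agent.Helper44q.T

/-- The `k`-points of a variety (an integral `k`-scheme, locally of finite type) with function field `S`
are dense if and only if `P` is true. -/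
def DenseIff (k S : Type) [Field k] [Field S] [Algebra k S] (P : Prop) : Prop :=
  ∀ (X : Scheme.{0}) [IsIntegral X] (p : X ⟶ Spec (CommRingCat.of k)) [LocallyOfFiniteType p],
    HasFunctionField k X p S → (DensePoints k X p ↔ P)

/-- The question Q1 over `k` for the (forms of) quotients of tori by finite groups of automorphisms: they
have the Hilbert property if their `k`-points are dense. -/
def QuestionForTori (k : Type) [Field k] : Prop :=
  ∀ (L : IntermediateField k (AlgebraicClosure k)) [FiniteDimensional k L] [IsGalois k L]
    (Γ : Type) [Group Γ] [Finite Γ] (π : Γ →* (L ≃ₐ[k] L)) (K : Type) [Field K] [Algebra k K]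
    [Algebra L K] [IsScalarTower k L K] (ρ : Γ →* (K ≃ₐ[k] K)), IsTorusAction π ρ →
    ∀ (X : Scheme.{0}) [IsIntegral X] (p : X ⟶ Spec (CommRingCat.of k))
      [LocallyOfFiniteType p], HasFunctionField k X p (inv ρ) → DensePoints k X p →
      HilbertProperty k X p

theorem result (k : Type) [Field k] [CharZero k]
    (hk : ∃ S : Finset k, IntermediateField.adjoin ℚ (S : Set k) = ⊤) :
    (∀ (L : IntermediateField k (AlgebraicClosure k)) [FiniteDimensional k L] [IsGalois k L]
      (Γ : Type) [Group Γ] [Finite Γ] (π : Γ →* (L ≃ₐ[k] L)) (K : Type) [Field K] [Algebra k K]
      [Algebra L K] [IsScalarTower k L K] (ρ : Γ →* (K ≃ₐ[k] K)),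
      -- 1. quotients of tori
      (IsTorusAction π ρ →
        [HilbertType k (inv ρ),
          FibrePowersSolvable π,
          ∃ (S : Type) (_ : Field S) (_ : Algebra k S), FinGen k S ∧ HilbertType k S ∧
            RegularlySolvable π S].TFAE ∧
        DenseIff k (inv ρ) (WeaklySolvable π) ∧
        (RegularlySolvable π (RatFunc k) → HilbertType k (inv ρ)) ∧
        (WeaklySolvable π → (∀ x ∈ π.ker, ∀ y ∈ π.ker, x * y = y * x) →
          HilbertType k (inv ρ))) ∧
      -- 2. arbitrary stabilisers
      (IsLinearAction π ρ → ∀ (C : Set (K →ₐ[k] RatFunc K)) (M : IntermediateField k K),
        IsInvariantField ρ C M →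
        FibrePowersSolvable π ∨ (WeaklySolvable π ∧ SplitSolvable k) →
        HilbertType k M) ∧
      -- 3. the criterion for arbitrary actions
      (IsActionOver π ρ →
        (FinGen k K → HilbertType k (inv ρ) → FibrePowersSolvable π) ∧
        (IndependentTwists π ρ → HilbertType k (inv ρ)))) ∧
    (SplitSolvable k ↔ QuestionForTori k) := by
  refine ⟨fun L _ _ Γ _ _ π K _ _ _ _ ρ => ⟨fun h => ⟨?_, fun X _ p _ hX =>
    (tfae_dense_mult hk h X p hX).out 0 1, regular_mult hk h, abelian_mult hk h⟩,
    hilbertType_arb hk, fun ha => ⟨fun hK h => fib_of_action hK ha.1 ha.2.1 ha.2.2 h,
    crit ρ π ha.2.1 ha.2.2⟩⟩, split_iff_mult hk⟩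
  have h1 := tfae_mult hk h
  tfae_have 1 ↔ 2 := h1.out 0 1
  tfae_have 1 ↔ 3 := h1.out 0 3
  tfae_finish

end Pool.Agent.Results.MP_87f965_ag.ArbitraryStabilisers
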