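import Pool.Agent.Helper44q.S.Main

/-!
# The Hilbert property of varieties with sprays: flexible and Gromov elliptic varieties

Let `X` be a variety with function field `K` over a finitely generated field `k` of characteristic
zero, for example a number field.  A prime divisor `P` (on `X` or on another model of `K`) is *moved*
in each of the following cases.

* There is a family of rational curves through the general point (`s : K → K(t)` with `s(a)(0) = a`)
  which is regular along `P` and whose velocity field does not preserve the ideal of `P`.
* `P` meets an affine open subset (of some model) with an action of the additive group, given by a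
  locally nilpotent derivation, or of the multiplicative group, given by a grading, which does not
  preserve `P`.
* `P` meets an affine open subset `U` with a spray `A^N × U → U`, `(0, x) ↦ x`, such that one of its
  `N` velocity fields does not preserve the ideal of `P`; in particular this is the case if the spray
  is dominating in the sense of Gromov at the general point of `P`.

So all prime divisors on a smooth variety which is locally elliptic in the sense of Gromov are moved,
and the same holds for flexible varieties.  Kaliman and Zaidenberg have shown that smooth cubic
hypersurfaces are elliptic over algebraically closed fields.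

We show that a cover which is ramified over a moved divisor does not matter for the Hilbert property:
the `k`-points which do not lift to finitely many such covers are dense.  So `X` has the Hilbert
property if it has no covers which are unramified over the moved divisors; and a variety all of whose
prime divisors are moved has the weak Hilbert property, and it has the Hilbert property if it is simply
connected in codimension one, as predicted by Q1.  The density of the `k`-points need not be assumed if
there is a spray which is submersive at one `k`-point; then `X` is unirational.

The proof: it is shown that a family which is transversal to `P` for `t = 0` meets `P` with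
multiplicity one over an algebraic point of the line which is close to `0`
(`Pool.Agent.Helper44q.S.meets_of_moves`, a Newton polygon argument with a prolongation of the
valuation `P` to the algebraic closure of `K`).  Then the result `RationalCurves` is used.  The velocity
of a dominating spray does not preserve `P`, because the residue field of `P` is formally smooth
over `k`, so that there is a tangent vector at the general point of `P` which is transversal to `P`.
-/

set_option autoImplicit false

namespace Pool.Agent.Results.MP_87f965_ag.GromovElliptic

open AlgebraicGeometry CategoryTheory W560.HP Pool.Agent.R70.HC Pool.Agent.Helper44q.S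
open Pool.Agent.Y742.HC (DensePoints)

/-- Let `X` be an integral scheme, locally of finite type over a finitely generated field `k` of
characteristic zero, with function field `K`.  Let the `k`-points of `X` be dense, or let there be a
spray which is submersive at a `k`-point (then `K` is contained in a field of rational functions).
(1) The `k`-points of `X` which are not images of `k`-points of finitely many given covers are dense,
if each of these covers is ramified over a moved divisor or has new algebraic functions.
(2) If every finite extension `M / K`, with `k` algebraically closed in `M`, which is unramified at all
moved divisors is trivial, then `X` has the Hilbert property.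
(3) If all the prime divisors on `X` are moved, then `X` has the weak Hilbert property in codimension
one; if moreover every finite extension `M / K`, with `k` algebraically closed in `M`, which is
unramified at all prime divisors on `X` is trivial, then `X` has the Hilbert property. -/
theorem result (k : Type) [Field k] [CharZero k]
    (hk : ∃ S : Finset k, IntermediateField.adjoin ℚ (S : Set k) = ⊤)
    (K : Type) [Field K] [Algebra k K]
    (X : Scheme.{0}) (f : X ⟶ Spec (CommRingCat.of k)) [IsIntegral X] [LocallyOfFiniteType f]
    (e : X.functionField ≃+* K) (he : ∀ a : k, e (toFF k X f a) = algebraMap k K a) :
    (SubmersiveSpray k K → DensePoints k X f ∧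
      ∃ n : ℕ, Nonempty (K →ₐ[k] FractionRing (MvPolynomial (Fin n) k))) ∧
    (DensePoints k X f ∨ SubmersiveSpray k K →
      (∀ (q : ℕ) (Y : Fin q → Scheme.{0}) (π : ∀ i, Y i ⟶ X) (_ : ∀ i, IsIntegral (Y i)),
        (∀ i, IsFinite (π i)) → (∀ i, Surjective (π i)) →
        (∀ i, ∃ (M : Type) (_ : Field M) (_ : Algebra k M) (_ : Algebra K M)
          (_ : IsScalarTower k K M), IsExtensionOf (π i) e M ∧
          ((∃ c : M, IsAlgebraic k c ∧ c ∉ Set.range (algebraMap k M)) ∨
            ∃ P : FF.Place k K, Moved P ∧ ¬ UnramifiedAt M P)) →
        Dense {x : X | ∃ s : Spec (CommRingCat.of k) ⟶ X, s ≫ f = 𝟙 _ ∧ x ∈ Set.range s.base ∧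
          ∀ i (t : Spec (CommRingCat.of k) ⟶ Y i), t ≫ π i ≠ s}) ∧
      ((∀ (M : Type) [Field M] [Algebra k M] [Algebra K M] [IsScalarTower k K M]
          [FiniteDimensional K M], (∀ a : M, IsAlgebraic k a → a ∈ Set.range (algebraMap k M)) →
          (∀ P : FF.Place k K, Moved P → UnramifiedAt M P) →
          Function.Surjective (algebraMap K M)) →
        HilbertProperty k X f ∧
        ((∀ x : X, IsIntegrallyClosed (X.presheaf.stalk x)) → HilbertPropertyIso k X f)) ∧
      ((∀ P : FF.Place k K, PlaceOn k X e P → Moved P) →
        WeakHilbertPropertyInCodimOne k X f e ∧
        ((∀ (M : Type) [Field M] [Algebra k M] [Algebra K M] [IsScalarTower k K M]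
          [FiniteDimensional K M], (∀ a : M, IsAlgebraic k a → a ∈ Set.range (algebraMap k M)) →
          (∀ P : FF.Place k K, PlaceOn k X e P → UnramifiedAt M P) →
          Function.Surjective (algebraMap K M)) →
          HilbertProperty k X f ∧
          ((∀ x : X, IsIntegrallyClosed (X.presheaf.stalk x)) → HilbertPropertyIso k X f)))) := by
  refine ⟨fun h => ⟨dense k hk K X f e he h, h.embed⟩, fun h => ?_⟩
  have hd : DensePoints k X f := h.elim id (dense k hk K X f e he)
  refine ⟨fun q Y π hYi hfin hsurj H => weak k hk K X f e he hd q Y π hYi hfin hsurj H,
    fun H => hilbert k hk K X f e he hd H, fun hP => ⟨?_, fun H => ?_⟩⟩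
  · intro q Y π hYi hfin hsurj hram
    refine weak k hk K X f e he hd q Y π hYi hfin hsurj fun i => ?_
    obtain ⟨M, iM1, iM2, iM3, iM4, hext, P, hPX, hun⟩ := hram i
    exact ⟨M, iM1, iM2, iM3, iM4, hext, Or.inr ⟨P, hP P hPX, hun⟩⟩
  · exact hilbert k hk K X f e he hd fun M _ _ _ _ _ hc hl =>
      H M hc fun P hPX => hl P (hP P hPX)

end Pool.Agent.Results.MP_87f965_ag.GromovElliptic
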