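import Pool.Agent.Helper44q.E.Fin

/-!
# The Hilbert property of homogeneous spaces of `SL_n` with finite stabilisers

Let `k` be a finitely generated field of characteristic zero, for example a number field, `L` a finite
Galois extension of `k`, `Γ` a finite group and `π : Γ → Gal(L/k)` a homomorphism (an embedding
problem over `k`; `Γ` should be the group of a Galois extension of `k` which contains `L`).  Let `Γ`
act on a vector space `V` over `L` such that `γ (c v) = π(γ)(c) γ(v)` and only `1` acts trivially.  The
varieties `X` over `k` with function field `L(V)^Γ` are the varieties which are stably birational to the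
homogeneous spaces, with or without `k`-points, of `SL_n` over `k` with the finite stabiliser
`ker π` (a finite group scheme, not necessarily constant).

1. The following are equivalent: `X` has the Hilbert property; for all `m` the embedding problem for the
`m`-fold fibre power `Γ ×_H ⋯ ×_H Γ → H = Gal(L/k)` has a proper solution; for every finite extension
`L'` of `k` there is a proper solution over `k` which remains proper over `L'`; there is a variety over
`k` with the Hilbert property over whose function field the embedding problem has a regular solution.
2. The `k`-points of `X` are dense if and only if there is a weak solution, and then `X` is unirational.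
3. `X` has the Hilbert property if the embedding problem has a regular solution over `k(T)`, in
particular if the stabiliser `ker π` is a product of groups `G ≀ S_n` (`G` with trivial centre,
`Inn G` complemented in `Aut G`, `n` large) and `π` is surjective, or if `ker π` is abelian and the
`k`-points of `X` are dense.
4. All these varieties `X` have the Hilbert property as soon as their `k`-points are dense (as predicted
by Q1: their smooth projective models are algebraically simply connected) if and only if all finite
split embedding problems over `k` have proper solutions (the conjecture of Dèbes and Deschamps over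
`k`).

The proof of 1. is by twisting `V` with proper solutions which are linearly disjoint over `L`: the
twists are vector spaces over `k` and are mapped to `X`, and a cover of `X` which does not have a
section over `X` has a section over at most one of them.  For `L = k`, 1. says that `V/G` has the Hilbert property if and only
if all powers `G^m` are Galois groups over `k`, if and only if for every finite extension `L'` of `k` there
is a Galois extension of `k` with group `G` which is linearly disjoint from `L'`.
-/

set_option autoImplicit false

namespace Pool.Agent.Results.MP_87f965_ag.HomogeneousSpaces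

open AlgebraicGeometry CategoryTheory W560.HP
open Pool.Agent.TH178.HI (HasFunctionField)
open Pool.Agent.Y742.HC (DensePoints)
open Pool.Agent.Helper44q.Q (HilbertType inv FinGen)
open Pool.Agent.Helper44q.E
open Pool.Agent.H391R2 (Wr)

/-- **The Hilbert property of homogeneous spaces with finite stabilisers.** -/
theorem result (k : Type) [Field k] [CharZero k]
    (hk : ∃ S : Finset k, IntermediateField.adjoin ℚ (S : Set k) = ⊤) :
    (∀ (L : IntermediateField k (AlgebraicClosure k)) [FiniteDimensional k L] [IsGalois k L]
      (Γ : Type) [Group Γ] [Finite Γ] (π : Γ →* (L ≃ₐ[k] L)) (K : Type) [Field K] [Algebra k K]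
      [Algebra L K] [IsScalarTower k L K] (ρ : Γ →* (K ≃ₐ[k] K)), IsSemilinear π ρ →
      [HilbertType k (inv ρ),
        ∀ m : ℕ, ProperlySolvable (fibPr π m),
        ∀ L' : IntermediateField k (AlgebraicClosure k), FiniteDimensional k L' →
          SolvableBeyond π L',
        ∃ (S : Type) (_ : Field S) (_ : Algebra k S), FinGen k S ∧ HilbertType k S ∧
          RegularOver π S].TFAE ∧
      (∀ (X : Scheme.{0}) [IsIntegral X] (p : X ⟶ Spec (CommRingCat.of k))
        [LocallyOfFiniteType p], HasFunctionField k X p (inv ρ) →
        [DensePoints k X p, WeaklySolvable π,
          ∃ n : ℕ, Nonempty (inv ρ →ₐ[k] FractionRing (MvPolynomial (Fin n) k))].TFAE) ∧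
      (RegularOver π (RatFunc k) → HilbertType k (inv ρ)) ∧
      (WeaklySolvable π → (∀ x ∈ π.ker, ∀ y ∈ π.ker, x * y = y * x) → HilbertType k (inv ρ)) ∧
      (Function.Surjective π → (∃ (I : Type) (_ : Finite I) (G : I → Type)
        (_ : ∀ i, Group (G i)) (n : I → ℕ), (∀ i, Finite (G i) ∧ Nontrivial (G i) ∧
          Subgroup.center (G i) = ⊥ ∧ (∃ T : Subgroup (MulAut (G i)),
            IsCompl T (MulAut.conj : G i →* MulAut (G i)).range) ∧
          ((3 * Nat.card (G i) + 2).factorial) ^ 3 ≤ n i) ∧
        Nonempty (π.ker ≃* (∀ i, Wr (G i) (n i)))) → HilbertType k (inv ρ))) ∧
    (SplitSolvable k ↔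
      ∀ (L : IntermediateField k (AlgebraicClosure k)) [FiniteDimensional k L] [IsGalois k L]
        (Γ : Type) [Group Γ] [Finite Γ] (π : Γ →* (L ≃ₐ[k] L)) (K : Type) [Field K] [Algebra k K]
        [Algebra L K] [IsScalarTower k L K] (ρ : Γ →* (K ≃ₐ[k] K)), IsSemilinear π ρ →
        ∀ (X : Scheme.{0}) [IsIntegral X] (p : X ⟶ Spec (CommRingCat.of k))
          [LocallyOfFiniteType p], HasFunctionField k X p (inv ρ) → DensePoints k X p →
          HilbertProperty k X p) := by
  refine ⟨fun L _ _ Γ _ _ π K _ _ _ _ ρ h => ⟨tfae_rel hk h, fun X _ p _ hX =>
    tfae_dense hk h X p hX, regular_ratFunc hk h, hilbertType_abelian hk h, ?_⟩, split_iff hk⟩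
  rintro hs ⟨I, _, G, _, n, hG, hN⟩
  have := fun i => (hG i).1
  have := fun i => (hG i).2.1
  exact regular_ratFunc hk h (regularOver_cls (Pool.Agent.TH444.TW.Cls.kernel π hs I G
    (fun i => (hG i).2.2.1) (fun i => (hG i).2.2.2.1) n (fun i => (hG i).2.2.2.2) hN))

end Pool.Agent.Results.MP_87f965_ag.HomogeneousSpaces
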