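import Pool.Agent.Helper44q.R.Main
import Pool.Agent.Helper44q.R.CycM

/-!
# Rational points outside thin sets on 100% of the del Pezzo surfaces of degree 1 and of the Fano cyclic covers

1. Every del Pezzo surface of degree 1 over `ℚ` is given by an equation
`y ^ 2 = x ^ 3 + a (u, v) x + f (u, v)` in the weighted projective space `ℙ(1, 1, 2, 3)`, with a binary
quartic form `a` and a binary sextic form `f` with integral coefficients, and conversely if it is smooth. We
prove: for **every** `a` with coefficients at most `H ^ 4` a proportion tending to `1` as `H → ∞`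
(uniformly in `a`) of the surfaces with coefficients of `f` at most `H ^ 6` have rational points outside all
the thin subsets of `ℙ(1, 1, 2, 3)(ℚ)` of complexity at most `m(H)`, `m(H) → ∞`; these points can even be
chosen within `1 / m(H)` of arbitrary points over the real numbers and over the `p`-adic fields with
`p ≤ m(H)`. In particular the rational points of 100% of these surfaces are not contained in a given thin
set.

2. The same is proved for 100% of the smooth everywhere locally soluble cyclic covers `z ^ q = f(x)` of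
`ℙⁿ`, `n ≥ 2`, `q ≥ 2`, where `f` is an integral form of degree `q l` with coefficients at most `H` and
`(q - 1) l ≤ n`, which means that the cover is a Fano variety: for `n = 2` these are the del Pezzo surfaces
of degree two `z ^ 2 = f_4(x_0, x_1, x_2)`, the cubic surfaces `z ^ 3 = f_3(x_0, x_1, x_2)` and the
quadrics `z ^ 2 = f_2(x_0, x_1, x_2)`; for `n = 3` for example the quartic and the sextic double solids.
-/

set_option autoImplicit false

namespace Pool.Agent.Results.MP_87f965_ag.RandomWeightedHypersurfaces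

open Polynomial Filter

/-! ## Thin sets -/

/-- The polynomials `P(X, w)` in `w`, whose coefficients are polynomials in `X = (X₀, …, Xₙ)` with
integral coefficients, which have no root `w` in the field of rational functions `ℚ(X₀, …, Xₙ)`. The
sets of the rational vectors `X` for which `P(X, w)` has a rational root `w`, and their subsets, are the
thin subsets of `ℚ ^ (n + 1)`. -/
def Covers (n : ℕ) : Set (MvPolynomial (Fin (n + 1)) ℤ)[X] :=
  {P | ∀ r : FractionRing (MvPolynomial (Fin (n + 1)) ℤ), aeval r P ≠ 0}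

/-- The polynomials `P ∈ Covers n` of complexity at most `m`: the degree of `P` in `w`, the degree
of `P` in `X₀, …, Xₙ` and the absolute values of the integral coefficients are at most `m`. -/
def BoundedCovers (n m : ℕ) : Set (MvPolynomial (Fin (n + 1)) ℤ)[X] :=
  {P | P ∈ Covers n ∧ P.natDegree ≤ m ∧ ∀ k, (P.coeff k).totalDegree ≤ m ∧
    ∀ s, |(P.coeff k).coeff s| ≤ (m : ℤ)}

/-- The rational polynomial `P(X, w)` has no rational root `w`. -/
def Avoids {n : ℕ} (P : (MvPolynomial (Fin (n + 1)) ℤ)[X]) (X : Fin (n + 1) → ℚ) : Prop :=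
  ∀ w : ℚ, P.eval₂ (MvPolynomial.eval₂Hom (Int.castRingHom ℚ) X) w ≠ 0

/-! ## Del Pezzo surfaces of degree 1 -/

/-- The value `∑ g i U ^ (d - i) V ^ i` at `(u, v)` of the binary form of degree `d` with the
coefficients `g 0, …, g d`. -/
def form {d : ℕ} {R : Type*} [CommRing R] (g : Fin (d + 1) → ℤ) (u v : R) : R :=
  ∑ i : Fin (d + 1), (g i : R) * u ^ (d - (i : ℕ)) * v ^ (i : ℕ)

/-- `z = (u, v, x, y)` is a point over the field `K`, different from the point `(0 : 0 : 1 : 1)`, of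
the surface `y ^ 2 = x ^ 3 + a (u, v) x + f (u, v)` in the weighted projective space with the weights
`1, 1, 2, 3`; `a` is a binary quartic and `f` a binary sextic form. -/
def IsPoint {K : Type*} [Field K] (a : Fin 5 → ℤ) (f : Fin 7 → ℤ) (z : Fin 4 → K) : Prop :=
  (z 0 ≠ 0 ∨ z 1 ≠ 0) ∧ z 3 ^ 2 = z 2 ^ 3 + form a (z 0) (z 1) * z 2 + form f (z 0) (z 1)

/-- The weights of the coordinates `u, v, x, y`. -/
def weight : Fin 4 → ℕ := ![1, 1, 2, 3]

/-- The natural sizes of the coordinates at the real place, if the coefficients of `a` and `f` have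
the sizes `H ^ 4` and `H ^ 6`. -/
noncomputable def size (H : ℝ) : Fin 4 → ℝ := ![1, 1, H ^ 2, H ^ 3]

/-- After the scaling with `β` the coordinates of the `p`-adic vector `Z` are integral, one is a
unit. -/
def Normalized (p : ℕ) [Fact p.Prime] (β : ℚ_[p]) (Z : Fin 4 → ℚ_[p]) : Prop :=
  (∀ i, ‖β ^ weight i * Z i‖ ≤ 1) ∧ ∃ i, ‖β ^ weight i * Z i‖ = 1

/-- After the scaling with `β` the coordinates of the real vector `W` are at most of their natural
sizes, with one equality. -/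
def NormalizedReal (H β : ℝ) (W : Fin 4 → ℝ) : Prop :=
  (∀ i, |β ^ weight i * W i| ≤ size H i) ∧ ∃ i, |β ^ weight i * W i| = size H i

/-- The point `z = (u, v, x, y)` has `u ≠ 0`, and its affine coordinates `(y / u ^ 3, v / u, x / u ^ 2)`
are outside the thin set of `P`. -/
def Outside (P : (MvPolynomial (Fin (2 + 1)) ℤ)[X]) (z : Fin 4 → ℚ) : Prop :=
  z 0 ≠ 0 ∧ Avoids P ![z 3 / z 0 ^ 3, z 1 / z 0, z 2 / z 0 ^ 2]

/-- Weak approximation with the precision `1 / m` at the real place and at the primes `p ≤ m`, by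
rational points outside the thin sets of complexity at most `m`: for all points `W` over `ℝ` and `Z p`
over all the `ℚ_p` there is a rational point `z` which, after suitable scalings, is close to them (the
coordinates differ by at most `1 / m` at the primes `p ≤ m` and by at most `1 / m` of their natural sizes
at the real place) and which lies outside the thin sets of all the covers of complexity at most `m`. -/
def Approximation (m : ℕ) (H : ℝ) (a : Fin 5 → ℤ) (f : Fin 7 → ℤ) : Prop :=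
  ∀ (Z : ∀ (p : ℕ) [Fact p.Prime], Fin 4 → ℚ_[p]) (W : Fin 4 → ℝ),
    (∀ (p : ℕ) [Fact p.Prime], IsPoint a f (Z p)) → IsPoint a f W →
    ∃ z : Fin 4 → ℚ, IsPoint a f z ∧
      (∀ (p : ℕ) [Fact p.Prime], p ≤ m → ∃ α β : ℚ_[p], α ≠ 0 ∧ Normalized p β (Z p) ∧
        ∀ i, ‖α ^ weight i * (z i : ℚ_[p]) - β ^ weight i * Z p i‖ ≤ 1 / m) ∧
      (∃ α β : ℝ, α ≠ 0 ∧ NormalizedReal H β W ∧
        ∀ i, |α ^ weight i * (z i : ℝ) - β ^ weight i * W i| ≤ size H i / m) ∧
      ∀ P ∈ BoundedCovers 2 m, Outside P z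

/-! ## Cyclic covers -/

/-- The forms of degree `d` in `n + 1` variables whose coefficients are integers of absolute value at
most `H`. -/
def Forms (d n H : ℕ) : Set (MvPolynomial (Fin (n + 1)) ℤ) :=
  {f | f.IsHomogeneous d ∧ ∀ m, |f.coeff m| ≤ (H : ℤ)}

/-- The cyclic cover `z ^ q = f(x)` of `ℙⁿ` is smooth: over every field of characteristic zero and at
every point `(x, z)`, `x ≠ 0`, of the cover one of the partial derivatives of `z ^ q - f(x)` is not
zero. -/
def Smooth (q : ℕ) {n : ℕ} (f : MvPolynomial (Fin (n + 1)) ℤ) : Prop :=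
  ∀ (K : Type) [Field K] [CharZero K] (x : Fin (n + 1) → K) (z : K), x ≠ 0 →
    MvPolynomial.aeval x f = z ^ q →
    (∃ i, MvPolynomial.aeval x (MvPolynomial.pderiv i f) ≠ 0) ∨ (q : K) * z ^ (q - 1) ≠ 0

/-- The cover `z ^ q = f(x)` has points over the real numbers and over all the `p`-adic fields. -/
def LocallySoluble (q : ℕ) {n : ℕ} (f : MvPolynomial (Fin (n + 1)) ℤ) : Prop :=
  (∃ (x : Fin (n + 1) → ℝ) (z : ℝ), x ≠ 0 ∧ MvPolynomial.aeval x f = z ^ q) ∧
    ∀ (p : ℕ) [Fact p.Prime], ∃ (x : Fin (n + 1) → ℚ_[p]) (z : ℚ_[p]), x ≠ 0 ∧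
      MvPolynomial.aeval x f = z ^ q

/-- The point `(a, w)` of the cover (a point of the projective space with the weights `1, …, 1, l`) has
`a₀ ≠ 0`, and its affine coordinates `(w / a₀ ^ l, a₁ / a₀, …, aₙ / a₀)` are outside the thin set
of `P`. -/
def OutsideCover (l : ℕ) {n : ℕ} (P : (MvPolynomial (Fin (n + 1)) ℤ)[X]) (a : Fin (n + 1) → ℚ)
    (w : ℚ) : Prop :=
  a 0 ≠ 0 ∧ Avoids P (Fin.cons (w / a 0 ^ l) fun i : Fin n => a i.succ / a 0)

/-- Weak approximation for the cover `z ^ q = f(x)`, `f` a form of degree `q l` with coefficients of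
size at most `H`, to precision `1 / m` at the real place and at the primes up to `m`, by rational points
outside the thin sets of complexity at most `m`: for all real points `(y, u)` and `p`-adic points
`(x p, z p)` of the cover, one for each prime `p`, there is a rational point `(a, w)` of the cover such
that, for suitable representatives `(c a, c ^ l w)` of it, the coordinates of `x p - c a` have absolute
value at most `‖x p‖ / m` and `z p - c ^ l w` has absolute value at most `‖x p‖ ^ l / m` for all the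
primes `p ≤ m`, and the coordinates of `y - c a` are at most `‖y‖ / m` and `u - c ^ l w` is at most
`H ^ (1 / q) ‖y‖ ^ l / m` (`‖y‖` being the largest absolute value of a coordinate;
`H ^ (1 / q) ‖y‖ ^ l` is the natural size of `u`); and the point `(a, w)` lies outside the thin sets of
all the covers of complexity at most `m`. -/
def CoverApproximation (q l m : ℕ) (H : ℝ) {n : ℕ} (f : MvPolynomial (Fin (n + 1)) ℤ) : Prop :=
  ∀ (x : ∀ (p : ℕ) [Fact p.Prime], Fin (n + 1) → ℚ_[p])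
    (z : ∀ (p : ℕ) [Fact p.Prime], ℚ_[p]) (y : Fin (n + 1) → ℝ) (u : ℝ),
    (∀ (p : ℕ) [Fact p.Prime], x p ≠ 0 ∧ MvPolynomial.aeval (x p) f = z p ^ q) → y ≠ 0 →
    MvPolynomial.aeval y f = u ^ q →
    ∃ (a : Fin (n + 1) → ℚ) (w : ℚ), a ≠ 0 ∧ MvPolynomial.aeval a f = w ^ q ∧
      (∀ (p : ℕ) [Fact p.Prime], p ≤ m → ∃ c : ℚ_[p], c ≠ 0 ∧
        (∀ i, ‖x p i - c * (a i : ℚ_[p])‖ ≤ ‖x p‖ / m) ∧
        ‖z p - c ^ l * (w : ℚ_[p])‖ ≤ ‖x p‖ ^ l / m) ∧
      (∃ c : ℝ, c ≠ 0 ∧ (∀ i, |y i - c * (a i : ℝ)| ≤ ‖y‖ / m) ∧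
        |u - c ^ l * (w : ℝ)| ≤ H ^ (1 / (q : ℝ)) * ‖y‖ ^ l / m) ∧
      ∀ P ∈ BoundedCovers n m, OutsideCover l P a w

/-! ## Proofs -/

theorem bounded_cov {n m : ℕ} {P : (MvPolynomial (Fin (n + 1)) ℤ)[X]}
    (h : P ∈ BoundedCovers n m) : P ∈ Pool.Agent.Helper44q.R.CovC n m := by
  obtain ⟨hr, hdeg, hk⟩ := h
  have hr' : Pool.Agent.Y214.HB.NoRoot P := by
    intro r h0
    apply hr r
    rw [← h0]
    unfold Pool.Agent.Y214.HB.toK
    rw [eval_map_algebraMap]
  exact ⟨hdeg, fun k => (hk k).1, fun k u => (hk k).2 u, hr'⟩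

theorem bounded_mono {n m m' : ℕ} (hm : m ≤ m') {P : (MvPolynomial (Fin (n + 1)) ℤ)[X]}
    (h : P ∈ BoundedCovers n m) : P ∈ BoundedCovers n m' :=
  ⟨h.1, h.2.1.trans hm, fun k => ⟨(h.2.2 k).1.trans hm,
    fun u => ((h.2.2 k).2 u).trans (by exact_mod_cast hm)⟩⟩

theorem exists_bounded {n : ℕ} {P : (MvPolynomial (Fin (n + 1)) ℤ)[X]} (h : P ∈ Covers n) :
    ∃ m, P ∈ BoundedCovers n m := by
  classical
  obtain ⟨m₁, h₁⟩ := Finset.exists_le (P.support.image fun k => (P.coeff k).totalDegree)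
  obtain ⟨m₂, h₂⟩ := Finset.exists_le (P.support.biUnion fun k => (P.coeff k).support.image
    fun u => ((P.coeff k).coeff u).natAbs)
  refine ⟨max P.natDegree (max m₁ m₂), h, le_max_left _ _, fun k => ?_⟩
  by_cases hk : k ∈ P.support
  · refine ⟨(h₁ _ (Finset.mem_image_of_mem _ hk)).trans
      ((le_max_left _ _).trans (le_max_right _ _)), fun u => ?_⟩
    by_cases hu : u ∈ (P.coeff k).support
    · have h3 := h₂ _ (Finset.mem_biUnion.mpr ⟨k, hk, Finset.mem_image_of_mem _ hu⟩)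
      have h4 : ((P.coeff k).coeff u).natAbs ≤ max P.natDegree (max m₁ m₂) :=
        h3.trans ((le_max_right _ _).trans (le_max_right _ _))
      rw [Int.abs_eq_natAbs]
      exact_mod_cast h4
    · rw [MvPolynomial.notMem_support_iff.mp hu, abs_zero]
      positivity
  · rw [Polynomial.notMem_support_iff.mp hk]
    refine ⟨by simp, fun u => ?_⟩
    rw [MvPolynomial.coeff_zero, abs_zero]
    positivity

theorem approx_of {m : ℕ} {H : ℝ} {a : Fin 5 → ℤ} {f : Fin 7 → ℤ}
    (h : Pool.Agent.Helper44q.R.WAFP m H a f (Pool.Agent.Helper44q.R.PtD m)) :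
    Approximation m H a f := by
  intro Z W hZ hW
  obtain ⟨z, hz, h1, h2, h3, h4⟩ := h Z W hZ hW
  refine ⟨z, hz, h1, h2, fun P hP => ⟨h3, fun w => ?_⟩⟩
  have h5 := Pool.Agent.Helper44q.R.ptD_eval (h4 w) (bounded_cov hP)
  rw [eval_map] at h5
  exact h5

theorem coverApprox_of {q l m : ℕ} {H : ℝ} {n : ℕ} {f : MvPolynomial (Fin (n + 1)) ℤ}
    (h : Pool.Agent.Helper44q.R.WACP q l m H f (Pool.Agent.Helper44q.R.PtC n m)) :
    CoverApproximation q l m H f := by
  intro x z y u hxz hy hyf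
  obtain ⟨a, w, ha, haw, h1, h2, h3, h4⟩ := h x z y u hxz hy hyf
  refine ⟨a, w, ha, haw, h1, h2, fun P hP => ⟨h3, fun t => ?_⟩⟩
  have h5 := Pool.Agent.Helper44q.R.ptC_eval (h4 t) (bounded_cov hP)
  rw [eval_map] at h5
  exact h5

theorem box_finite (H : ℕ) : ({f : Fin 7 → ℤ | ∀ i, |f i| ≤ (H : ℤ) ^ 6}).Finite := by
  have h := Pool.Agent.Helper44q.R.bx_finite (H ^ 6)
  unfold Pool.Agent.Helper44q.R.Bx at h
  push_cast at h
  exact h

theorem forms_finite (d n H : ℕ) : (Forms d n H).Finite := Pool.Agent.Helper44q.R.fm_fin n d H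

/-- **Del Pezzo surfaces of degree 1.** -/
theorem delPezzo :
    (∃ m : ℕ → ℕ, Tendsto m atTop atTop ∧ ∃ e : ℕ → ℝ, Tendsto e atTop (nhds 0) ∧
      ∀ H : ℕ, 1 ≤ H → ∀ a : Fin 5 → ℤ, (∀ i, |a i| ≤ (H : ℤ) ^ 4) →
        (1 - e H) * (({f : Fin 7 → ℤ | ∀ i, |f i| ≤ (H : ℤ) ^ 6} : Set _).ncard : ℝ) ≤
          (({f : Fin 7 → ℤ | (∀ i, |f i| ≤ (H : ℤ) ^ 6) ∧ Approximation (m H) H a f} :
            Set _).ncard : ℝ)) ∧
    ∀ P ∈ Covers 2, ∃ e : ℕ → ℝ, Tendsto e atTop (nhds 0) ∧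
      ∀ H : ℕ, 1 ≤ H → ∀ a : Fin 5 → ℤ, (∀ i, |a i| ≤ (H : ℤ) ^ 4) →
        (1 - e H) * (({f : Fin 7 → ℤ | ∀ i, |f i| ≤ (H : ℤ) ^ 6} : Set _).ncard : ℝ) ≤
          (({f : Fin 7 → ℤ | (∀ i, |f i| ≤ (H : ℤ) ^ 6) ∧
            ∃ z : Fin 4 → ℚ, IsPoint a f z ∧ Outside P z} : Set _).ncard : ℝ) := by
  have key : ∃ m : ℕ → ℕ, Tendsto m atTop atTop ∧ ∃ e : ℕ → ℝ, Tendsto e atTop (nhds 0) ∧
      ∀ H : ℕ, 1 ≤ H → ∀ a : Fin 5 → ℤ, (∀ i, |a i| ≤ (H : ℤ) ^ 4) →
        (1 - e H) * (({f : Fin 7 → ℤ | ∀ i, |f i| ≤ (H : ℤ) ^ 6} : Set _).ncard : ℝ) ≤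
          (({f : Fin 7 → ℤ | (∀ i, |f i| ≤ (H : ℤ) ^ 6) ∧ Approximation (m H) H a f} :
            Set _).ncard : ℝ) := by
    obtain ⟨m, hm, e, he, h⟩ := Pool.Agent.Helper44q.R.mainR
    refine ⟨m, hm, e, he, fun H hH a ha => (h H hH a ha).trans ?_⟩
    have hsub : {f : Fin 7 → ℤ | (∀ i, |f i| ≤ (H : ℤ) ^ 6) ∧
        Pool.Agent.Helper44q.R.WAFP (m H) H a f (Pool.Agent.Helper44q.R.PtD (m H))} ⊆
        {f : Fin 7 → ℤ | (∀ i, |f i| ≤ (H : ℤ) ^ 6) ∧ Approximation (m H) H a f} :=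
      fun f hf => ⟨hf.1, approx_of hf.2⟩
    exact_mod_cast Set.ncard_le_ncard hsub ((box_finite H).subset (fun f hf => hf.1))
  refine ⟨key, fun P hP => ?_⟩
  obtain ⟨m, hm, e, he, h⟩ := key
  obtain ⟨m₀, hm₀⟩ := exists_bounded hP
  refine ⟨fun H => if m₀ ≤ m H then e H else 1, ?_, fun H hH a ha => ?_⟩
  · refine he.congr' ?_
    filter_upwards [tendsto_atTop.mp hm m₀] with H hH
    rw [if_pos hH]
  · simp only
    split_ifs with hle
    · refine (h H hH a ha).trans ?_
      have hsub : {f : Fin 7 → ℤ | (∀ i, |f i| ≤ (H : ℤ) ^ 6) ∧ Approximation (m H) H a f} ⊆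
          {f : Fin 7 → ℤ | (∀ i, |f i| ≤ (H : ℤ) ^ 6) ∧
            ∃ z : Fin 4 → ℚ, IsPoint a f z ∧ Outside P z} := by
        rintro f ⟨hf, ha⟩
        refine ⟨hf, ?_⟩
        obtain ⟨W, hW⟩ := Pool.Agent.Helper44q.R.local_r a f
        obtain ⟨z, hz, -, -, hx⟩ := ha
          (fun p _ => (Pool.Agent.Helper44q.R.local_p p a f).choose) W
          (fun p _ => (Pool.Agent.Helper44q.R.local_p p a f).choose_spec) hW
        exact ⟨z, hz, hx P (bounded_mono hle hm₀)⟩
      exact_mod_cast Set.ncard_le_ncard hsub ((box_finite H).subset (fun f hf => hf.1))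
    · rw [sub_self, zero_mul]
      positivity

/-- **Fano cyclic covers.** -/
theorem cyclicCovers (n q l : ℕ) (hn : 2 ≤ n) (hq : 2 ≤ q) (hl : 1 ≤ l) (hF : (q - 1) * l ≤ n) :
    (∃ m : ℕ → ℕ, Tendsto m atTop atTop ∧
      Tendsto (fun H : ℕ =>
        (({f | f ∈ Forms (q * l) n H ∧ Smooth q f ∧ LocallySoluble q f ∧
          CoverApproximation q l (m H) H f} : Set _).ncard : ℝ) /
        (({f | f ∈ Forms (q * l) n H ∧ Smooth q f ∧ LocallySoluble q f} : Set _).ncard : ℝ))
      atTop (nhds 1)) ∧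
    ∀ P ∈ Covers n, Tendsto (fun H : ℕ =>
        (({f | f ∈ Forms (q * l) n H ∧ Smooth q f ∧ LocallySoluble q f ∧
          ∃ (a : Fin (n + 1) → ℚ) (w : ℚ), a ≠ 0 ∧ MvPolynomial.aeval a f = w ^ q ∧
            OutsideCover l P a w} : Set _).ncard : ℝ) /
        (({f | f ∈ Forms (q * l) n H ∧ Smooth q f ∧ LocallySoluble q f} : Set _).ncard : ℝ))
      atTop (nhds 1) := by
  have key : ∃ m : ℕ → ℕ, Tendsto m atTop atTop ∧
      Tendsto (fun H : ℕ =>
        (({f | f ∈ Forms (q * l) n H ∧ Smooth q f ∧ LocallySoluble q f ∧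
          CoverApproximation q l (m H) H f} : Set _).ncard : ℝ) /
        (({f | f ∈ Forms (q * l) n H ∧ Smooth q f ∧ LocallySoluble q f} : Set _).ncard : ℝ))
      atTop (nhds 1) := by
    obtain ⟨m, hm, hlim⟩ := Pool.Agent.Helper44q.R.mainC n q l hn hq hl hF
    refine ⟨m, hm, ?_⟩
    refine tendsto_of_tendsto_of_tendsto_of_le_of_le hlim tendsto_const_nhds
      (fun H => ?_) (fun H => ?_)
    · apply div_le_div_of_nonneg_right _ (Nat.cast_nonneg _)
      have hsub : {f | f ∈ Forms (q * l) n H ∧ Smooth q f ∧ LocallySoluble q f ∧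
          Pool.Agent.Helper44q.R.WACP q l (m H) H f
            (Pool.Agent.Helper44q.R.PtC n (m H))} ⊆
          {f | f ∈ Forms (q * l) n H ∧ Smooth q f ∧ LocallySoluble q f ∧
          CoverApproximation q l (m H) H f} :=
        fun f hf => ⟨hf.1, hf.2.1, hf.2.2.1, coverApprox_of hf.2.2.2⟩
      exact (Nat.cast_le (α := ℝ)).mpr
        (Set.ncard_le_ncard hsub ((forms_finite (q * l) n H).subset (fun f hf => hf.1)))
    · apply div_le_one_of_le₀ _ (Nat.cast_nonneg _)
      have hsub : {f | f ∈ Forms (q * l) n H ∧ Smooth q f ∧ LocallySoluble q f ∧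
          CoverApproximation q l (m H) H f} ⊆
          {f | f ∈ Forms (q * l) n H ∧ Smooth q f ∧ LocallySoluble q f} :=
        fun f hf => ⟨hf.1, hf.2.1, hf.2.2.1⟩
      exact (Nat.cast_le (α := ℝ)).mpr
        (Set.ncard_le_ncard hsub ((forms_finite (q * l) n H).subset (fun f hf => hf.1)))
  refine ⟨key, fun P hP => ?_⟩
  obtain ⟨m, hm, hlim⟩ := key
  obtain ⟨m₀, hm₀⟩ := exists_bounded hP
  refine tendsto_of_tendsto_of_tendsto_of_le_of_le' hlim tendsto_const_nhds ?_ ?_
  · filter_upwards [tendsto_atTop.mp hm m₀] with H hH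
    apply div_le_div_of_nonneg_right _ (Nat.cast_nonneg _)
    have hsub : {f | f ∈ Forms (q * l) n H ∧ Smooth q f ∧ LocallySoluble q f ∧
          CoverApproximation q l (m H) H f} ⊆
        {f | f ∈ Forms (q * l) n H ∧ Smooth q f ∧ LocallySoluble q f ∧
          ∃ (a : Fin (n + 1) → ℚ) (w : ℚ), a ≠ 0 ∧ MvPolynomial.aeval a f = w ^ q ∧
            OutsideCover l P a w} := by
      rintro f ⟨hf, hs, hls, ha⟩
      refine ⟨hf, hs, hls, ?_⟩
      obtain ⟨y, u, hy0, hyf⟩ := hls.1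
      obtain ⟨a, w, ha0, haw, -, -, hx⟩ := ha (fun p _ => (hls.2 p).choose)
        (fun p _ => (hls.2 p).choose_spec.choose) y u
        (fun p _ => (hls.2 p).choose_spec.choose_spec) hy0 hyf
      exact ⟨a, w, ha0, haw, hx P (bounded_mono hH hm₀)⟩
    exact_mod_cast Set.ncard_le_ncard hsub
      ((forms_finite (q * l) n H).subset (fun f hf => hf.1))
  · filter_upwards with H
    apply div_le_one_of_le₀ _ (Nat.cast_nonneg _)
    have hsub : {f | f ∈ Forms (q * l) n H ∧ Smooth q f ∧ LocallySoluble q f ∧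
          ∃ (a : Fin (n + 1) → ℚ) (w : ℚ), a ≠ 0 ∧ MvPolynomial.aeval a f = w ^ q ∧
            OutsideCover l P a w} ⊆
        {f | f ∈ Forms (q * l) n H ∧ Smooth q f ∧ LocallySoluble q f} :=
      fun f hf => ⟨hf.1, hf.2.1, hf.2.2.1⟩
    exact_mod_cast Set.ncard_le_ncard hsub
      ((forms_finite (q * l) n H).subset (fun f hf => hf.1))

/-- **1.** There are `m(H) → ∞` and `e(H) → 0` such that for all `H ≥ 1` and **every** integral binary
quartic form `a` with coefficients at most `H ^ 4`, all but a proportion `e(H)` of the integral binary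
sextic forms `f` with coefficients at most `H ^ 6` give a surface `y ^ 2 = x ^ 3 + a (u, v) x + f (u, v)`
(a del Pezzo surface of degree 1 if it is smooth) with rational points within `1 / m(H)` of arbitrary local
points at the real place and at the primes up to `m(H)` and outside all the thin sets of complexity at
most `m(H)`. For a given thin set, 100% of the surfaces have a rational point outside it.

**2.** The same for 100% of the everywhere locally soluble smooth cyclic covers `z ^ q = f(x)` of `ℙⁿ`,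
`f` of degree `q l` with coefficients at most `H`, if `n ≥ 2`, `q ≥ 2`, `l ≥ 1` and `(q - 1) l ≤ n`. -/
theorem result :
    ((∃ m : ℕ → ℕ, Tendsto m atTop atTop ∧ ∃ e : ℕ → ℝ, Tendsto e atTop (nhds 0) ∧
      ∀ H : ℕ, 1 ≤ H → ∀ a : Fin 5 → ℤ, (∀ i, |a i| ≤ (H : ℤ) ^ 4) →
        (1 - e H) * (({f : Fin 7 → ℤ | ∀ i, |f i| ≤ (H : ℤ) ^ 6} : Set _).ncard : ℝ) ≤
          (({f : Fin 7 → ℤ | (∀ i, |f i| ≤ (H : ℤ) ^ 6) ∧ Approximation (m H) H a f} :
            Set _).ncard : ℝ)) ∧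
    ∀ P ∈ Covers 2, ∃ e : ℕ → ℝ, Tendsto e atTop (nhds 0) ∧
      ∀ H : ℕ, 1 ≤ H → ∀ a : Fin 5 → ℤ, (∀ i, |a i| ≤ (H : ℤ) ^ 4) →
        (1 - e H) * (({f : Fin 7 → ℤ | ∀ i, |f i| ≤ (H : ℤ) ^ 6} : Set _).ncard : ℝ) ≤
          (({f : Fin 7 → ℤ | (∀ i, |f i| ≤ (H : ℤ) ^ 6) ∧
            ∃ z : Fin 4 → ℚ, IsPoint a f z ∧ Outside P z} : Set _).ncard : ℝ)) ∧
    ∀ n q l : ℕ, 2 ≤ n → 2 ≤ q → 1 ≤ l → (q - 1) * l ≤ n →
      (∃ m : ℕ → ℕ, Tendsto m atTop atTop ∧
        Tendsto (fun H : ℕ =>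
          (({f | f ∈ Forms (q * l) n H ∧ Smooth q f ∧ LocallySoluble q f ∧
            CoverApproximation q l (m H) H f} : Set _).ncard : ℝ) /
          (({f | f ∈ Forms (q * l) n H ∧ Smooth q f ∧ LocallySoluble q f} : Set _).ncard : ℝ))
        atTop (nhds 1)) ∧
      ∀ P ∈ Covers n, Tendsto (fun H : ℕ =>
          (({f | f ∈ Forms (q * l) n H ∧ Smooth q f ∧ LocallySoluble q f ∧
            ∃ (a : Fin (n + 1) → ℚ) (w : ℚ), a ≠ 0 ∧ MvPolynomial.aeval a f = w ^ q ∧
              OutsideCover l P a w} : Set _).ncard : ℝ) /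
          (({f | f ∈ Forms (q * l) n H ∧ Smooth q f ∧ LocallySoluble q f} : Set _).ncard : ℝ))
        atTop (nhds 1) :=
  ⟨delPezzo, fun n q l hn hq hl hF => cyclicCovers n q l hn hq hl hF⟩

end Pool.Agent.Results.MP_87f965_ag.RandomWeightedHypersurfaces
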